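import Pool.Agent.H27.TM.TargetsA
import Pool.Agent.H27.TM.TargetsG
import Pool.Agent.H28.RC.Targets1
import Pool.Agent.H31.SW.TargetsG

/-!
# (RT) the sum over the residue classes
-/

set_option autoImplicit false

open NumberField NumberField.InfinitePlace MeasureTheory Set Filter Complex
open scoped nonZeroDivisors ENNReal

namespace Pool.Agent.H86.TMB.RT

open Pool.Agent.H25.HK Pool.Agent.H23.LB Pool.Agent.H23.LC
open Pool.Agent.H28.RC (Rep T_RX)
open Pool.Agent.H29.DW (Rl wv Pos rv)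
open Pool.Agent.H31.SW (EE GG Pf DD PP pF dK W_CU)
open Pool.Agent.H27.TM

section

variable {K : Type} [Field K] [NumberField K]

private lemma rs_le (f : Ideal (𝓞 K)) (M : FI K) : (f : FI K) * M ≤ M := by
  calc (f : FI K) * M ≤ 1 * M := by
        gcongr
        exact FractionalIdeal.coeIdeal_le_one
    _ = M := one_mul M

/-- a set of representatives gives a decomposition -/
private noncomputable def rsEquiv {f : Ideal (𝓞 K)} {M : FI K} {X : Finset K}
    (h : Rep K f M X) :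
    ({r : K // r ∈ X} × {l : K // l ∈ (f : FI K) * M}) ≃ {x : K // x ∈ M} :=
  Equiv.ofBijective (fun p => ⟨p.1.1 + p.2.1,
      M.coeToSubmodule.add_mem (h.1 _ p.1.2) (rs_le f M p.2.2)⟩) (by
    constructor
    · rintro ⟨⟨r, hr⟩, ⟨l, hl⟩⟩ ⟨⟨r', hr'⟩, ⟨l', hl'⟩⟩ hp
      have h1 : r + l = r' + l' := congrArg Subtype.val hp
      have hx : r + l ∈ M := M.coeToSubmodule.add_mem (h.1 _ hr) (rs_le f M hl)
      obtain ⟨s, -, hs⟩ := h.2 (r + l) hx
      have h2 : r = s := hs r ⟨hr, by rwa [add_sub_cancel_left]⟩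
      have h3 : r' = s := hs r' ⟨hr', by rwa [h1, add_sub_cancel_left]⟩
      have h4 : r = r' := h2.trans h3.symm
      subst h4
      have h5 : l = l' := add_left_cancel h1
      subst h5
      rfl
    · rintro ⟨x, hx⟩
      obtain ⟨r, ⟨hr, hr'⟩, -⟩ := h.2 x hx
      exact ⟨⟨⟨r, hr⟩, ⟨x - r, hr'⟩⟩, Subtype.ext (add_sub_cancel r x)⟩)

private lemma rsEquiv_apply {f : Ideal (𝓞 K)} {M : FI K} {X : Finset K} (h : Rep K f M X)
    (p : {r : K // r ∈ X} × {l : K // l ∈ (f : FI K) * M}) :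
    ((rsEquiv h p : {x : K // x ∈ M}) : K) = p.1.1 + p.2.1 := rfl

/-- the density of the sublattice -/
private lemma rs_DD (j : Ideal (𝓞 K)) (M : FI K) (y : InfinitePlace K → ℝ) :
    DD ((j : FI K) * M) y = DD M y / Nf K j := by
  unfold DD Nf
  rw [map_mul, FractionalIdeal.coeIdeal_absNorm]
  push_cast
  rw [div_div, mul_comm ((Ideal.absNorm j : ℕ) : ℝ)]

/-- the sum over the residue classes -/
private lemma rs_sum (j : Ideal (𝓞 K)) (M : FI K) (X : Finset K) (hX : Rep K j M X)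
    (cc P : K → ℂ) (E : ℝ)
    (hfin : {x : {x : K // x ∈ M} | P x ≠ 0}.Finite)
    (hcc : ∀ x ∈ M, ∀ l ∈ (j : FI K) * M, cc (x + l) = cc x) (hE : ∀ x ∈ M, ‖cc x‖ ≤ E) :
    ‖∑' x : {x : K // x ∈ M}, cc x * P x‖ ≤
      E * ∑ r ∈ X, ‖∑' l : {l : K // l ∈ (j : FI K) * M}, P (r + l)‖ := by
  have hs : Summable (fun x : {x : K // x ∈ M} => cc x * P x) := by
    refine summable_of_hasFiniteSupport (hfin.subset fun x hx => ?_)
    intro h
    apply hx
    change cc x * P x = 0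
    rw [h, mul_zero]
  have hs2 : Summable (fun q : {r : K // r ∈ X} × {l : K // l ∈ (j : FI K) * M} =>
      cc (q.1.1 + q.2.1) * P (q.1.1 + q.2.1)) := by
    refine (hs.comp_injective (rsEquiv hX).injective).congr fun q => ?_
    rw [Function.comp_apply, rsEquiv_apply hX q]
  have h1 : ∑' x : {x : K // x ∈ M}, cc x * P x =
      ∑' q : {r : K // r ∈ X} × {l : K // l ∈ (j : FI K) * M},
        cc (q.1.1 + q.2.1) * P (q.1.1 + q.2.1) := by
    rw [← (rsEquiv hX).tsum_eq (fun x : {x : K // x ∈ M} => cc x * P x)]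
    refine tsum_congr fun q => ?_
    rw [rsEquiv_apply hX q]
  have h2 : ∀ r : {r : K // r ∈ X},
      ∑' l : {l : K // l ∈ (j : FI K) * M}, cc (r.1 + l.1) * P (r.1 + l.1) =
        cc r.1 * ∑' l : {l : K // l ∈ (j : FI K) * M}, P (r.1 + l.1) := by
    intro r
    rw [← tsum_mul_left]
    refine tsum_congr fun l => ?_
    rw [hcc r.1 (hX.1 _ r.2) l.1 l.2]
  rw [h1, hs2.tsum_prod, tsum_fintype]
  simp only [h2]
  refine (norm_sum_le _ _).trans ?_
  have h3 : ∀ r ∈ (Finset.univ : Finset {r : K // r ∈ X}),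
      ‖cc r.1 * ∑' l : {l : K // l ∈ (j : FI K) * M}, P (r.1 + l.1)‖ ≤
        E * ‖∑' l : {l : K // l ∈ (j : FI K) * M}, P (r.1 + l.1)‖ := by
    intro r _
    rw [norm_mul]
    exact mul_le_mul_of_nonneg_right (hE _ (hX.1 _ r.2)) (norm_nonneg _)
  refine (Finset.sum_le_sum h3).trans (le_of_eq ?_)
  rw [← Finset.mul_sum]
  congr 1
  exact Finset.sum_coe_sort X
    (fun r => ‖∑' l : {l : K // l ∈ (j : FI K) * M}, P (r + l.1)‖)

end

theorem pf_RT (hKF : M_KF) (hRX : Pool.Agent.H28.RC.T_RX) (hCU : Pool.Agent.H31.SW.W_CU) :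
    M_RT := by
  classical
  intro n hn
  obtain ⟨B, hB, hKF1⟩ := hKF n hn
  refine ⟨B, hB, fun ε p hε hε1 hp => ?_⟩
  obtain ⟨C, hC, hKF2⟩ := hKF1 ε p hε hε1 hp
  refine ⟨C * 4 ^ B, by positivity, ?_⟩
  intro K _ _ hK f M y ω τ ι J c cc D E u hf hM hω hτ hcls hspc hD hE hper hEb
  obtain ⟨X, hX, hXc⟩ := hRX K f M hf hM
  have hL : (f : FI K) * M ≠ 0 :=
    mul_ne_zero (by rwa [Ne, FractionalIdeal.coeIdeal_eq_zero]) hM
  obtain ⟨C₂, -, hC₂⟩ := hCU n hn
  set c' : ι → InfinitePlace K → ℂ := fun j v => c j v + (v.mult : ℂ) * u with hc'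
  set Λ : ℝ := 4 * (1 + |u|) with hΛ
  have hu := abs_nonneg u
  have hfin : ∀ j, {x : {x : K // x ∈ M} | pF (fun v => GG (p (rv v)) (c' j v)) y ω x ≠ 0}.Finite
      := by
    intro j
    have h1 := (hC₂ K hK M y ω (fun _ => 1) (fun _ => 1 / 10000) hM hω
      (fun _ => by norm_num)).1
    refine Set.Finite.of_finite_image (f := Subtype.val) (h1.subset ?_)
      Subtype.val_injective.injOn
    rintro _ ⟨x, hx, rfl⟩
    refine ⟨x.2, fun v => ?_⟩
    by_contra hv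
    apply hx
    unfold pF
    refine Finset.prod_eq_zero (Finset.mem_univ v) ?_
    change EE (c' j v * Complex.log (wv v x.1 y ω)) * p (rv v) (wv v x.1 y ω - 1) = 0
    rw [hp.2 _ _ (not_le.1 hv), mul_zero]
  -- the hypotheses of (KF)
  have hmu : ∀ v : InfinitePlace K, ‖(v.mult : ℂ) * (u : ℂ)‖ ≤ 2 * |u| := by
    intro v
    rw [norm_mul, Complex.norm_real, Real.norm_eq_abs, Complex.norm_natCast]
    apply mul_le_mul_of_nonneg_right _ hu
    have : v.mult ≤ 2 := by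
      unfold mult
      split_ifs <;> omega
    exact_mod_cast this
  have hpar : ∀ j ∈ J, ∀ v, Rl (rv v) (c' j v) ∧ τ v ≤ Λ * (1 + ‖c' j v‖) ∧
      1 + ‖c' j v‖ ≤ Λ * τ v := by
    intro j hj v
    have h1 := hcls j hj
    have h2 := h1.low v
    have h3 := h1.upp v
    have h4 := h1.real v
    have h5 := hτ v
    have h6 := hmu v
    refine ⟨?_, ?_, ?_⟩
    · intro hr
      have h7 := h4 hr
      simp only [hc', Complex.add_im, h7, Complex.mul_im, Complex.natCast_re, Complex.ofReal_im,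
        Complex.natCast_im, Complex.ofReal_re, mul_zero, zero_mul, add_zero]
    · have h7 : ‖c j v‖ ≤ ‖c' j v‖ + 2 * |u| := by
        calc ‖c j v‖ = ‖c' j v - (v.mult : ℂ) * u‖ := by simp [hc']
          _ ≤ ‖c' j v‖ + ‖(v.mult : ℂ) * (u : ℂ)‖ := norm_sub_le _ _
          _ ≤ _ := by linarith
      have h8 := norm_nonneg (c' j v)
      rw [hΛ]
      nlinarith [mul_nonneg hu h8]
    · have h7 : ‖c' j v‖ ≤ ‖c j v‖ + 2 * |u| := (norm_add_le _ _).trans (by linarith)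
      rw [hΛ]
      nlinarith
  have hspc' : Spc J c' (fun _ => 1) D := by
    intro c₀
    have h1 := hspc (fun v => c₀ v - (v.mult : ℂ) * u)
    refine le_trans (le_of_eq ?_) h1
    congr 2
    apply Finset.filter_congr
    intro j _
    have h2 : ∀ v, c' j v - c₀ v = c j v - (c₀ v - (v.mult : ℂ) * u) := by
      intro v
      simp only [hc']
      ring
    simp only [h2]
  have hΛ1 : 1 ≤ Λ := by
    rw [hΛ]
    linarith
  have key := fun r : K => hKF2 K hK ((f : FI K) * M) y ω r τ ι J c' D Λ hL hω hΛ1 hτ hpar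
    hspc' hD
  rw [rs_DD f M y] at key
  set Z : ℝ := PP τ ^ (2 + ε) *
      ((1 + DD M y / Nf K f) ^ 6 * (1 + DD M y / Nf K f / PP τ ^ (1 / 2 : ℝ)) ^ 11) with hZ
  have hterm : ∀ j ∈ J, ‖∑' x : {x : K // x ∈ M}, cc j x *
      pF (fun v => GG (p (rv v)) (c j v + (v.mult : ℂ) * u)) y ω x‖ ^ 12 ≤
      E ^ 12 * ((X.card : ℝ) ^ 11 * ∑ r ∈ X, ‖SS p ((f : FI K) * M) y ω r (c' j)‖ ^ 12) := by
    intro j hj
    have h1 := rs_sum f M X hX (cc j) (pF (fun v => GG (p (rv v)) (c' j v)) y ω) E (hfin j)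
      (hper j hj) (hEb j hj)
    have h2 : (∑ r ∈ X, ‖SS p ((f : FI K) * M) y ω r (c' j)‖) ^ 12 ≤
        (X.card : ℝ) ^ 11 * ∑ r ∈ X, ‖SS p ((f : FI K) * M) y ω r (c' j)‖ ^ 12 :=
      pow_sum_le_card_mul_sum_pow (s := X)
        (f := fun r => ‖SS p ((f : FI K) * M) y ω r (c' j)‖) (fun _ _ => norm_nonneg _) 11
    calc _ ≤ (E * ∑ r ∈ X, ‖SS p ((f : FI K) * M) y ω r (c' j)‖) ^ 12 :=
          pow_le_pow_left₀ (norm_nonneg _) h1 12
      _ = E ^ 12 * (∑ r ∈ X, ‖SS p ((f : FI K) * M) y ω r (c' j)‖) ^ 12 := by rw [mul_pow]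
      _ ≤ _ := mul_le_mul_of_nonneg_left h2 (by positivity)
  calc _ ≤ ∑ j ∈ J, E ^ 12 * ((X.card : ℝ) ^ 11 *
          ∑ r ∈ X, ‖SS p ((f : FI K) * M) y ω r (c' j)‖ ^ 12) := Finset.sum_le_sum hterm
    _ = E ^ 12 * ((X.card : ℝ) ^ 11 *
          ∑ r ∈ X, ∑ j ∈ J, ‖SS p ((f : FI K) * M) y ω r (c' j)‖ ^ 12) := by
        rw [← Finset.mul_sum, ← Finset.mul_sum, Finset.sum_comm]
    _ ≤ E ^ 12 * ((X.card : ℝ) ^ 11 * ∑ _r ∈ X, C * ((D * dK K * Λ) ^ B * PP τ ^ (2 + ε) *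
      ((1 + DD M y / Nf K f) ^ 6 * (1 + DD M y / Nf K f / PP τ ^ (1 / 2 : ℝ)) ^ 11))) := by
        gcongr with r hr
        exact key r
    _ = _ := by
        rw [Finset.sum_const, nsmul_eq_mul, hXc]
        have h1 : D * dK K * Λ = 4 * (D * dK K * (1 + |u|)) := by
          rw [hΛ]
          ring
        have h2 : 0 ≤ D * dK K * (1 + |u|) := by
          unfold dK
          positivity
        rw [h1, Real.mul_rpow (by norm_num) h2]
        unfold Nf
        ring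

end Pool.Agent.H86.TMB.RT
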